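import Pool.Agent.H27.JtD

/-! Mod 7 congruences for signed part sums over partitions with distinct odd parts. -/

namespace Pool.Agent.Results.MP_ec0d67_nt.Full
open Finset PowerSeries TrivSqZeroExt DualNumber Pool.Agent.H27.Jt

set_option maxHeartbeats 200000

/-- Sum of the odd entries minus sum of the even entries. -/
def w (s : Multiset ℕ) : ℤ := ((s.filter Odd).sum : ℤ) - ((s.filter Even).sum : ℤ)

/-- The sum of `w` over the partitions of `m` in which no odd part is repeated. -/
def S (m : ℕ) : ℤ := ∑ p : m.Partition with (∀ i ∈ p.parts, Odd i → p.parts.count i ≤ 1), w p.parts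

theorem prod_w {A : Type} [CommRing A] {x : A} (hx : x * x = 0) (s : Multiset ℕ) :
    (s.map fun i => (if Odd i then -(1 + x) else -(1 + -x)) ^ i).prod = (-1) ^ s.sum * (1 + w s * x) := by
  induction s using Multiset.induction_on with
  | empty => simp [w]
  | cons i s ih =>
    rw [Multiset.map_cons, Multiset.prod_cons, ih, Multiset.sum_cons, pow_add]
    by_cases h : Odd i
    · have e : w (i ::ₘ s) = i + w s := by simp [w, h, Nat.not_even_iff_odd.mpr h]; ring
      rw [if_pos h, neg_pow, one_add_pow hx, e]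
      push_cast
      linear_combination (-1) ^ i * (-1) ^ s.sum * i * w s * hx
    · have e : w (i ::ₘ s) = -i + w s := by simp [w, h, Nat.not_odd_iff_even.mp h]; ring
      rw [if_neg h, neg_pow, one_add_pow (by simpa using hx), e]
      push_cast
      linear_combination -(-1) ^ i * (-1) ^ s.sum * i * w s * hx

theorem coeff_gf {A : Type} [CommRing A] {x : A} (hx : x * x = 0) (m : ℕ) :
    ∃ c : ℕ, coeff m (Nat.Partition.genFun (ff (-(1 + x)) (-(1 + -x)))) = (-1) ^ m * (c + S m * x) := by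
  refine ⟨#{p : m.Partition | ∀ i ∈ p.parts, Odd i → p.parts.count i ≤ 1}, ?_⟩
  rw [Nat.Partition.coeff_genFun, S, card_eq_sum_ones]
  push_cast
  rw [sum_mul, ← sum_add_distrib, mul_sum, sum_filter]
  refine sum_congr rfl fun p _ => ?_
  simp only [Finsupp.prod, Multiset.toFinsupp_support, Multiset.toFinsupp_apply]
  split_ifs with h
  · have e := prod_w hx p.parts
    rw [p.parts_sum] at e
    rw [← e, prod_multiset_map_count]
    refine prod_congr rfl fun i hi => ?_
    rw [Multiset.mem_toFinset] at hi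
    by_cases o : Odd i
    · have := h i hi o
      have := Multiset.one_le_count_iff_mem.mpr hi
      simp only [ff, if_pos o, show p.parts.count i = 1 by omega, if_true, pow_one]
    · simp only [ff, if_neg o, pow_mul]
  · push Not at h
    obtain ⟨i, hi, o, h⟩ := h
    exact prod_eq_zero (Multiset.mem_toFinset.mpr hi) (by rw [ff, if_pos o, if_neg (by omega)])

theorem main (m : ℕ) (h7 : m % 7 = 0 ∨ m % 7 = 5) : (7 : ℤ) ∣ S m := by
  have hx : (ε : (ZMod 7)[ε]) * ε = 0 := eps_mul_eps
  obtain ⟨L, hL, h⟩ := gf (-(1 + ε) : (ZMod 7)[ε]) (-(1 + -ε)) (m + 1)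
  set G := Nat.Partition.genFun (ff (-(1 + ε) : (ZMod 7)[ε]) (-(1 + -ε))) with hG
  let ι := inlHom (ZMod 7) (ZMod 7)
  let φ : (ZMod 7)[ε] → (ZMod 7)⟦X⟧ →+* (ZMod 7)[ε]⟦X⟧ := fun u => (rescale u).comp (PowerSeries.map ι)
  have φP : ∀ u, φ u (P (X ^ 2) (L + 1)) = P ((C (-u) * X) ^ 2) (L + 1) := fun u => by
    simp [φ, P, rescale_X]
  have φO : φ (1 + ε) (O (ZMod 7) (L + 1)) =
      ∏ i ∈ range (L + 1), (1 + (C (-(1 + ε)) * X) ^ (2 * i + 1)) := by
    simp only [φ, O, map_prod, map_add, map_one, map_pow, RingHom.comp_apply, map_X, rescale_X, map_neg,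
      neg_mul, (odd_two_mul_add_one _).neg_pow, sub_eq_add_neg]
  have dec : G = PowerSeries.map ι (PowerSeries.mk fun n => fst (coeff n G)) +
      C ε * PowerSeries.map ι (PowerSeries.mk fun n => snd (coeff n G)) := by
    ext n <;> simp [ι]
  have cc : (C ε * C ε : (ZMod 7)[ε]⟦X⟧) = 0 := by rw [← map_mul, hx, map_zero]
  have h1 := h.mul_right (φ (1 + ε) (P (X ^ 2) (L + 1)))
  rw [← φP, ← φO, sub_mul, ← map_mul, ← P_split, dec] at h1
  simp only [φ, RingHom.comp_apply, resc ι hx, resc ι (show -ε * -ε = 0 by simp), map_neg] at h1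
  have h2 := final (M := m + 1) hL (G := PowerSeries.mk fun n => snd (coeff n G)) (X_pow_dvd_iff.mpr fun n hn => by
    have h3 := h1.trans (dvd_of_eq (b := PowerSeries.map ι ((PowerSeries.mk fun n => fst (coeff n G)) *
      P (X ^ 2) (L + 1) ^ 2 - P X (2 * (L + 1))) + C ε * PowerSeries.map ι
      ((PowerSeries.mk fun n => snd (coeff n G)) * P (X ^ 2) (L + 1) ^ 2 - D (P X (2 * (L + 1))))) (by
        simp only [map_sub, map_mul, map_pow]
        linear_combination -(PowerSeries.map ι (PowerSeries.mk fun n => fst (coeff n G)) +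
          C ε * PowerSeries.map ι (PowerSeries.mk fun n => snd (coeff n G))) *
            PowerSeries.map ι (D (P (X ^ 2) (L + 1))) ^ 2 * cc))
    have h4 := congrArg snd (X_pow_dvd_iff.mp h3 n hn)
    simpa only [map_add, coeff_C_mul, coeff_map, snd_add, ι, inlHom_apply, snd_inl, DualNumber.snd_mul,
      fst_eps, snd_eps, fst_inl, zero_mul, one_mul, zero_add, snd_zero] using h4) (Nat.lt_succ_self m) h7
  obtain ⟨c, hc⟩ := coeff_gf hx m
  rw [coeff_mk, hG, hc] at h2
  rw [show (7 : ℤ) = (7 : ℕ) from rfl, ← ZMod.intCast_zmod_eq_zero_iff_dvd]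
  rcases neg_one_pow_eq_or ((ZMod 7)[ε]) m with e | e <;> simpa [e] using h2

theorem result (n : ℕ) : (7 : ℤ) ∣ S (7 * n) ∧ (7 : ℤ) ∣ S (7 * n + 5) :=
  ⟨main _ (by omega), main _ (by omega)⟩

end Pool.Agent.Results.MP_ec0d67_nt.Full
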